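import Mathlib
import Pool.Agent.Y855.A18

/-!
Residue classes with a given value of a quadratic symbol, and primitive roots in progressions.
-/

set_option autoImplicit false

open Finset

namespace Pool.Agent.Q321.AP

open Pool.Agent.Y855

/-- the class `a` is admissible modulo `M` and lies above the class `c` modulo `m` -/
def Good (M m c a : ℕ) : Prop :=
  a.Coprime M ∧ a % m = c % m ∧ ∀ q : ℕ, q.Prime → q ∣ M → 3 ≤ q → a % q ≠ 1

open Classical in
/-- the admissible residue classes modulo `4 |D| m` above the class `c` modulo `m` -/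
noncomputable def cls (D : ℤ) (m c : ℕ) : Finset ℕ :=
  (range (4 * D.natAbs * m)).filter (Good (4 * D.natAbs * m) m c)

theorem mem_cls {D : ℤ} {m c a : ℕ} : a ∈ cls D m c ↔
    a < 4 * D.natAbs * m ∧ Good (4 * D.natAbs * m) m c a := by
  classical
  unfold cls
  rw [mem_filter, mem_range]

/-- those with symbol `-1` -/
noncomputable def neg (D : ℤ) (m c : ℕ) : Finset ℕ := (cls D m c).filter (fun a => jacobiSym D a = -1)

/-- the expected density -/
noncomputable def dens (D : ℤ) (m c : ℕ) : ℝ := (neg D m c).card / (cls D m c).card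

theorem dens_mul (D : ℤ) (m c : ℕ) : dens D m c * (cls D m c).card = (neg D m c).card := by
  unfold dens
  rcases Nat.eq_zero_or_pos (cls D m c).card with h | h
  · have h1 : (neg D m c).card = 0 := by
      have := card_le_card (filter_subset (fun a : ℕ => jacobiSym D a = -1) (cls D m c))
      unfold neg
      omega
    rw [h, h1]; simp
  · rw [div_mul_cancel₀]
    exact_mod_cast h.ne'

theorem dens_nonneg (D : ℤ) (m c : ℕ) : 0 ≤ dens D m c := by
  unfold dens; positivity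

theorem dens_le_one (D : ℤ) (m c : ℕ) : dens D m c ≤ 1 := by
  unfold dens
  apply div_le_one_of_le₀ _ (Nat.cast_nonneg _)
  exact_mod_cast card_le_card (filter_subset _ _)

/-- the primes of `T` in the class `c` modulo `m` -/
def Tc (x z m c : ℕ) : Finset ℕ := (TT x z).filter (fun p => p % m = c % m)

open Classical in
/-- those with the primitive root `n` -/
noncomputable def Pc (n : ℤ) (x z m c : ℕ) : Finset ℕ :=
  (Tc x z m c).filter (fun p => orderOf (n : ZMod p) = p - 1)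

theorem NS_eq' (x z m a : ℕ) : NS x m a (OP z) = (TT x z).filter (fun p => p % m = a % m) :=
  NS_eq x z m a

theorem mem_TT {x z p : ℕ} : p ∈ TT x z ↔ (1 ≤ p ∧ p ≤ x) ∧ p.Prime ∧ ∀ q ∈ OP z, ¬ q ∣ p - 1 := by
  unfold TT
  rw [mem_filter, mem_Icc]

/-- the residue of a large prime is admissible -/
theorem mod_mem_cls {x z H m c : ℕ} {n D k : ℤ} (hn : n = D * k ^ 2) (hD : D ≠ 0) (hm : 1 ≤ m)
    (hc : c.Coprime m) (hM : 4 * D.natAbs * m ≤ z) (hH2 : 2 ≤ H)
    (hnd : ∀ p : ℕ, p.Prime → H < p → ¬ (p : ℤ) ∣ n) {p : ℕ} (hp : p ∈ Tc x z m c) (hpH : H < p) :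
    p % (4 * D.natAbs * m) ∈ cls D m c := by
  unfold Tc at hp
  rw [mem_filter, mem_TT] at hp
  obtain ⟨⟨hp1, hpp, hq⟩, hpc⟩ := hp
  have hD0 : 0 < D.natAbs := Int.natAbs_pos.2 hD
  have hM0 : 0 < 4 * D.natAbs * m := by positivity
  rw [mem_cls]
  refine ⟨Nat.mod_lt _ hM0, ?_, ?_, ?_⟩
  · have h1 : p.Coprime (4 * D.natAbs * m) := by
      rw [Nat.Prime.coprime_iff_not_dvd hpp]
      intro h
      rcases (Nat.Prime.dvd_mul hpp).1 h with h | h
      · rcases (Nat.Prime.dvd_mul hpp).1 h with h | h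
        · have h2 : p ∣ 2 ^ 2 := by simpa using h
          have h3 := Nat.le_of_dvd (by norm_num) (hpp.dvd_of_dvd_pow h2)
          omega
        · apply hnd p hpp hpH
          rw [hn]
          exact (Int.natCast_dvd.2 h).mul_right _
      · have h2 : p.Coprime m := by
          have : Nat.gcd p m = Nat.gcd c m := by
            rw [← Nat.mod_add_div p m, ← Nat.mod_add_div c m, hpc]
            simp
          rw [Nat.Coprime, this]
          exact hc
        have h3 := Nat.Coprime.eq_one_of_dvd h2 h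
        exact hpp.one_lt.ne' h3
    unfold Nat.Coprime at h1 ⊢
    rw [← Nat.gcd_rec, Nat.gcd_comm]
    exact h1
  · rw [Nat.mod_mod_of_dvd _ (dvd_mul_left m _)]
    exact hpc
  · intro q hqp hqd hq3 h
    rw [Nat.mod_mod_of_dvd _ hqd] at h
    refine hq q (mem_OP.2 ⟨hqp, hq3, (Nat.le_of_dvd hM0 hqd).trans hM⟩) ?_
    exact (Nat.modEq_iff_dvd' hpp.one_lt.le).1 (by
      unfold Nat.ModEq
      rw [h, Nat.mod_eq_of_lt hqp.one_lt])

theorem jacobi_mod (D : ℤ) (m : ℕ) {p : ℕ} (hp : Odd p) :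
    jacobiSym D (p % (4 * D.natAbs * m) : ℕ) = jacobiSym D p := by
  have h4 : 4 * D.natAbs ∣ 4 * D.natAbs * m := dvd_mul_right _ _
  have ho : Odd (p % (4 * D.natAbs * m)) := by
    rw [Nat.odd_iff] at hp ⊢
    rw [Nat.mod_mod_of_dvd _ ((by norm_num : 2 ∣ 4).trans ((dvd_mul_right 4 _).trans h4))]
    exact hp
  rw [jacobiSym.mod_right D ho, jacobiSym.mod_right D hp, Nat.mod_mod_of_dvd _ h4]

theorem legendre_eq {n D k : ℤ} (hn : n = D * k ^ 2) (p : ℕ) [Fact p.Prime]
    (hpn : ¬ (p : ℤ) ∣ n) : legendreSym p n = jacobiSym D p := by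
  have hk : ((k : ℤ) : ZMod p) ≠ 0 := by
    intro h
    apply hpn
    rw [hn]
    exact (((ZMod.intCast_zmod_eq_zero_iff_dvd _ _).1 h).pow (by norm_num)).mul_left _
  rw [hn, legendreSym.mul, legendreSym.sq_one' p hk, mul_one, jacobiSym.legendreSym.to_jacobiSym]

/-- a union of classes modulo `M` -/
theorem card_union_cls (x z M : ℕ) (S : Finset ℕ) (hS : ∀ a ∈ S, a < M) :
    (((TT x z).filter (fun p => p % M ∈ S)).card : ℝ) = ∑ a ∈ S, ((NS x M a (OP z)).card : ℝ) := by
  have h1 : (TT x z).filter (fun p => p % M ∈ S) = S.biUnion (fun a => NS x M a (OP z)) := by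
    ext p
    simp only [NS_eq', mem_filter, mem_biUnion]
    constructor
    · rintro ⟨h1, h2⟩
      exact ⟨p % M, h2, h1, by rw [Nat.mod_mod]⟩
    · rintro ⟨a, ha, h1, h2⟩
      rw [Nat.mod_eq_of_lt (hS a ha)] at h2
      exact ⟨h1, h2 ▸ ha⟩
  rw [h1, card_biUnion]
  · push_cast
    rfl
  · intro a ha b hb hab
    rw [Function.onFun, disjoint_left]
    intro p hp hq
    rw [NS_eq', mem_filter] at hp hq
    apply hab
    rw [← Nat.mod_eq_of_lt (hS a ha), ← Nat.mod_eq_of_lt (hS b hb), ← hp.2, ← hq.2]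

theorem cls_lt {D : ℤ} {m c a : ℕ} (h : a ∈ cls D m c) : a < 4 * D.natAbs * m :=
  (mem_cls.1 h).1

/-- the comparison of the primes with primitive root `n` with the classes -/
theorem close {x z H m c : ℕ} {n D k : ℤ} (hn : n = D * k ^ 2) (hD : D ≠ 0) (hm : 1 ≤ m)
    (hc : c.Coprime m) (hM : 4 * D.natAbs * m ≤ z) (hH2 : 2 ≤ H)
    (hnd : ∀ p : ℕ, p.Prime → H < p → ¬ (p : ℤ) ∣ n) :
    |((Tc x z m c).card : ℝ) -
        ∑ a ∈ cls D m c, ((NS x (4 * D.natAbs * m) a (OP z)).card : ℝ)| ≤ H ∧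
    |((Pc n x z m c).card : ℝ) -
        ∑ a ∈ neg D m c, ((NS x (4 * D.natAbs * m) a (OP z)).card : ℝ)| ≤
      H + (Bad n x z H).card := by
  classical
  set M := 4 * D.natAbs * m with hMdef
  have hmM : m ∣ M := dvd_mul_left m _
  rw [← card_union_cls x z M (cls D m c) (fun a ha => cls_lt ha),
    ← card_union_cls x z M (neg D m c) (fun a ha => cls_lt (mem_filter.1 ha).1)]
  set X := (TT x z).filter (fun p => p % M ∈ cls D m c) with hX
  set Y := (TT x z).filter (fun p => p % M ∈ neg D m c) with hY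
  have a1 : X ⊆ Tc x z m c := by
    intro p hp
    rw [hX, mem_filter] at hp
    unfold Tc
    rw [mem_filter]
    refine ⟨hp.1, ?_⟩
    have h3 := (mem_cls.1 hp.2).2.2.1
    rwa [Nat.mod_mod_of_dvd _ hmM] at h3
  have a2 : Tc x z m c ⊆ X ∪ Icc 1 H := by
    intro p hp
    rw [mem_union]
    rcases Nat.lt_or_ge H p with h | h
    · left
      rw [hX, mem_filter]
      exact ⟨(mem_filter.1 hp).1, mod_mem_cls hn hD hm hc hM hH2 hnd hp h⟩
    · right
      rw [mem_Icc]
      exact ⟨(mem_TT.1 (mem_filter.1 hp).1).1.1, h⟩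
  have hiff : ∀ p ∈ Tc x z m c, H < p → (orderOf (n : ZMod p) = p - 1 ↔
      p % M ∈ neg D m c ∧ ¬ ∃ l : ℕ, l.Prime ∧ 3 ≤ l ∧ l ∣ p - 1 ∧
        (n : ZMod p) ^ ((p - 1) / l) = 1) := by
    intro p hp hpH
    have hpT := (mem_TT.1 (mem_filter.1 hp).1)
    have : Fact p.Prime := ⟨hpT.2.1⟩
    have hodd : Odd p := hpT.2.1.odd_of_ne_two (by omega)
    rw [order_iff' n p (by omega) (hnd p hpT.2.1 hpH), legendre_eq hn p (hnd p hpT.2.1 hpH),
      ← jacobi_mod D m hodd]
    have h1 := mod_mem_cls hn hD hm hc hM hH2 hnd hp hpH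
    unfold neg
    rw [mem_filter]
    constructor
    · rintro ⟨h2, h3⟩
      exact ⟨⟨h1, h2⟩, h3⟩
    · rintro ⟨⟨_, h2⟩, h3⟩
      exact ⟨h2, h3⟩
  have b1 : Pc n x z m c ⊆ Y ∪ Icc 1 H := by
    intro p hp
    unfold Pc at hp
    rw [mem_filter] at hp
    rw [mem_union]
    rcases Nat.lt_or_ge H p with h | h
    · left
      rw [hY, mem_filter]
      exact ⟨(mem_filter.1 hp.1).1, ((hiff p hp.1 h).1 hp.2).1⟩
    · right
      rw [mem_Icc]
      exact ⟨(mem_TT.1 (mem_filter.1 hp.1).1).1.1, h⟩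
  have b2 : Y ⊆ Pc n x z m c ∪ (Icc 1 H ∪ Bad n x z H) := by
    intro p hp
    have hpX : p ∈ X := by
      rw [hY, mem_filter] at hp
      rw [hX, mem_filter]
      exact ⟨hp.1, (mem_filter.1 hp.2).1⟩
    have hpT := a1 hpX
    rw [hY, mem_filter] at hp
    rw [mem_union, mem_union]
    rcases Nat.lt_or_ge H p with h | h
    · by_cases hb : ∃ l : ℕ, l.Prime ∧ 3 ≤ l ∧ l ∣ p - 1 ∧ (n : ZMod p) ^ ((p - 1) / l) = 1
      · right; right
        unfold Bad
        rw [mem_filter]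
        exact ⟨hp.1, h, hb⟩
      · left
        unfold Pc
        rw [mem_filter]
        exact ⟨hpT, (hiff p hpT h).2 ⟨hp.2, hb⟩⟩
    · right; left
      rw [mem_Icc]
      exact ⟨(mem_TT.1 hp.1).1.1, h⟩
  have c1 := card_le_card a1
  have c2 := (card_le_card a2).trans (card_union_le _ _)
  have c3 := (card_le_card b1).trans (card_union_le _ _)
  have c4 := (card_le_card b2).trans ((card_union_le _ _).trans
    (Nat.add_le_add_left (card_union_le _ _) _))
  rw [Nat.card_Icc] at c2 c3 c4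
  have d1 : (X.card : ℝ) ≤ (Tc x z m c).card := by exact_mod_cast c1
  have d2 : ((Tc x z m c).card : ℝ) ≤ X.card + H := by
    have : (Tc x z m c).card ≤ X.card + H := by omega
    exact_mod_cast this
  have d3 : ((Pc n x z m c).card : ℝ) ≤ Y.card + H := by
    have : (Pc n x z m c).card ≤ Y.card + H := by omega
    exact_mod_cast this
  have d4 : (Y.card : ℝ) ≤ (Pc n x z m c).card + (H + (Bad n x z H).card) := by
    have : Y.card ≤ (Pc n x z m c).card + (H + (Bad n x z H).card) := by omega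
    exact_mod_cast this
  have d5 : (0 : ℝ) ≤ (Bad n x z H).card := Nat.cast_nonneg _
  have d6 : (0 : ℝ) ≤ (H : ℝ) := Nat.cast_nonneg _
  constructor
  · rw [abs_le]; constructor <;> linarith
  · rw [abs_le]; constructor <;> linarith

/-- sums over classes with uniform relative error -/
theorem sum_close {S S' : Finset ℕ} (hSS : S' ⊆ S) (g : ℕ → ℝ) (u ε δ : ℝ) (hu : 0 ≤ u)
    (hε : 0 ≤ ε) (hε1 : ε ≤ 1 / 2) (hδ0 : 0 ≤ δ) (hδ : δ * S.card = S'.card)
    (h : ∀ a ∈ S, |g a - u| ≤ ε * u) :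
    |∑ a ∈ S', g a - δ * ∑ a ∈ S, g a| ≤ 4 * ε * ∑ a ∈ S, g a := by
  have h1 : |∑ a ∈ S', g a - S'.card * u| ≤ S'.card * (ε * u) := by
    have e : ∑ a ∈ S', g a - S'.card * u = ∑ a ∈ S', (g a - u) := by
      rw [sum_sub_distrib, sum_const, nsmul_eq_mul]
    rw [e]
    refine (abs_sum_le_sum_abs _ _).trans ?_
    refine (sum_le_sum fun a ha => h a (hSS ha)).trans ?_
    rw [sum_const, nsmul_eq_mul]
  have h2 : |∑ a ∈ S, g a - S.card * u| ≤ S.card * (ε * u) := by
    have e : ∑ a ∈ S, g a - S.card * u = ∑ a ∈ S, (g a - u) := by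
      rw [sum_sub_distrib, sum_const, nsmul_eq_mul]
    rw [e]
    refine (abs_sum_le_sum_abs _ _).trans ?_
    refine (sum_le_sum fun a ha => h a ha).trans ?_
    rw [sum_const, nsmul_eq_mul]
  have hcard : (S'.card : ℝ) ≤ S.card := by exact_mod_cast card_le_card hSS
  set G := ∑ a ∈ S, g a with hG
  set G' := ∑ a ∈ S', g a with hG'
  have h3 : (S.card : ℝ) * u ≤ 2 * G := by
    have h4 := (abs_le.1 h2).1
    have h5 : (S.card : ℝ) * (ε * u) ≤ (S.card : ℝ) * (1 / 2 * u) :=
      mul_le_mul_of_nonneg_left (mul_le_mul_of_nonneg_right hε1 hu) (Nat.cast_nonneg _)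
    linarith
  have h6 : |G' - δ * G| ≤ |G' - S'.card * u| + δ * |G - S.card * u| := by
    have e : G' - δ * G = (G' - S'.card * u) - δ * (G - S.card * u) := by
      rw [mul_sub, ← mul_assoc, hδ]; ring
    rw [e]
    refine (abs_sub _ _).trans ?_
    rw [abs_mul, abs_of_nonneg hδ0]
  refine h6.trans ?_
  have h7 : δ * |G - S.card * u| ≤ δ * (S.card * (ε * u)) := mul_le_mul_of_nonneg_left h2 hδ0
  have h8 : δ * (S.card * (ε * u)) = S'.card * (ε * u) := by rw [← mul_assoc, hδ]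
  have h9 : (S'.card : ℝ) * (ε * u) ≤ S.card * (ε * u) :=
    mul_le_mul_of_nonneg_right hcard (by positivity)
  have h10 : (S.card : ℝ) * (ε * u) ≤ 2 * ε * G := by
    calc (S.card : ℝ) * (ε * u) = ε * (S.card * u) := by ring
      _ ≤ ε * (2 * G) := mul_le_mul_of_nonneg_left h3 hε
      _ = 2 * ε * G := by ring
  linarith

end Pool.Agent.Q321.AP
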