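import Mathlib
import Pool.Agent.Q321.AP.Classes

/-!
Cosets of finitely generated groups: primitive roots for the primes of a progression.
-/

set_option autoImplicit false

open Finset

namespace Pool.Agent.Q321.AP

open Pool.Agent.Y855

/-- admissible classes modulo `m` -/
def AdmC (m c : ℕ) : Prop := c.Coprime m ∧ ∀ q : ℕ, q.Prime → q ∣ m → 3 ≤ q → c % q ≠ 1

theorem cosets (ε : ℝ) (hε : 0 < ε) (m : ℕ) (hm : 1 ≤ m) : ∃ K : ℝ, 1 ≤ K ∧ ∀ r : ℕ, 2 ≤ r →
    ∀ B : ℕ, ∃ x₀ : ℕ, ∀ x : ℕ, x₀ ≤ x → ∀ z : ℕ, (z : ℝ) ^ K ≤ x → x ^ 2 ≤ z ^ r →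
    (∀ c : ℕ, AdmC m c →
      (x : ℝ) / (K * (Real.log x * Real.log z)) ≤ ((Tc x z m c).card : ℝ)) ∧
    ∀ (a : Fin r → ℤ) (b : ℤ), (∀ i, a i ≠ 0 ∧ |(a i : ℝ)| ≤ (Real.log x) ^ B) → MIf a → b ≠ 0 →
    |(b : ℝ)| ≤ (Real.log x) ^ B →
    ∀ (V : Finset (Fin r → ℕ)) (h : ℕ), HypC V z h → (V.card) ^ (2 * r) ≤ x →
    ∃ E ⊆ V, (E.card : ℝ) ≤ K * (h * (Real.log x / Real.log z)) ∧ ∀ v ∈ V \ E, ∀ D k : ℤ,
      Squarefree D → nv a b v = D * k ^ 2 → ∀ c : ℕ, AdmC m c →
      ∀ δ : ℝ, 0 ≤ δ → δ ≤ 1 → δ * (cls D m c).card = (neg D m c).card →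
      |((Pc (nv a b v) x z m c).card : ℝ) - δ * (Tc x z m c).card| ≤
        ε * (Tc x z m c).card := by
  classical
  have hcl := cl_pos m hm
  obtain ⟨ε', hε'⟩ : ∃ ε' : ℝ, ε' = min ε 1 / 8 := ⟨_, rfl⟩
  have hmin : 0 < min ε 1 := lt_min hε one_pos
  have hε'0 : 0 < ε' := by rw [hε']; positivity
  have hε'1 : ε' ≤ 1 / 8 := by
    rw [hε']
    have := min_le_right ε 1
    linarith
  have hε'ε : 8 * ε' ≤ ε := by
    rw [hε']
    have := min_le_left ε 1
    linarith
  obtain ⟨ε₁, hε₁⟩ : ∃ ε₁ : ℝ, ε₁ = ε' * cl m := ⟨_, rfl⟩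
  have hε₁0 : 0 < ε₁ := by rw [hε₁]; positivity
  obtain ⟨K₁, hK₁, h1⟩ := coset_bad (ε₁ / 2) (by positivity)
  obtain ⟨K₂, hK₂, h2⟩ := core ε' hε'0
  obtain ⟨K, hK⟩ : ∃ K : ℝ, K = max K₁ (max K₂ (2 * K₂ / cl m)) := ⟨_, rfl⟩
  have hKK₁ : K₁ ≤ K := by rw [hK]; exact le_max_left _ _
  have hKK₂ : K₂ ≤ K := by rw [hK]; exact (le_max_left _ _).trans (le_max_right _ _)
  have hKK₃ : 2 * K₂ / cl m ≤ K := by rw [hK]; exact (le_max_right _ _).trans (le_max_right _ _)
  refine ⟨K, hK₁.trans hKK₁, fun r hr B => ?_⟩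
  obtain ⟨x₁, hx₁, h1⟩ := h1 r hr B
  obtain ⟨x₂, hx₂, h2⟩ := h2 (B * (r + 1) + 1)
  refine ⟨max (max x₁ x₂) ⌈Real.exp (4 * m)⌉₊, fun x hx z hzK hzr => ?_⟩
  have hxx₁ : x₁ ≤ x := ((le_max_left _ _).trans (le_max_left _ _)).trans hx
  have hxx₂ : x₂ ≤ x := ((le_max_right _ _).trans (le_max_left _ _)).trans hx
  have hx3 : 3 ≤ x := hx₁.trans hxx₁
  have hx0 : (0 : ℝ) < x := by
    have : (3 : ℝ) ≤ x := by exact_mod_cast hx3
    linarith
  have hm4 : 4 * (m : ℝ) ≤ Real.log x := by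
    rw [Real.le_log_iff_exp_le hx0]
    have h1 := Nat.le_ceil (Real.exp (4 * m))
    have h2 : ((⌈Real.exp (4 * (m : ℝ))⌉₊ : ℕ) : ℝ) ≤ x := by
      exact_mod_cast (le_max_right _ _).trans hx
    linarith
  have hz1 : 1 ≤ z := by
    by_contra hcon
    have hz0 : z = 0 := by omega
    rw [hz0, zero_pow (by omega)] at hzr
    have : 0 < x ^ 2 := by positivity
    omega
  have hz1r : (1 : ℝ) ≤ z := by exact_mod_cast hz1
  have hzK1 : (z : ℝ) ^ K₁ ≤ x := (Real.rpow_le_rpow_of_exponent_le hz1r hKK₁).trans hzK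
  have hzK2 : (z : ℝ) ^ K₂ ≤ x := (Real.rpow_le_rpow_of_exponent_le hz1r hKK₂).trans hzK
  obtain ⟨hsq, h120, ht0, H, hH2, hHt, h1⟩ := h1 x hxx₁ z hzK1 hzr
  obtain ⟨-, h2⟩ := h2 x hxx₂
  obtain ⟨hz2, hLBz, -, hlow, -, hNS⟩ := h2 z hsq hzK2
  have hL0 : 0 < Real.log x := by linarith
  have hL1 : 1 ≤ Real.log x := by linarith
  have hz2r : (2 : ℝ) ≤ z := by exact_mod_cast hz2
  have hℓ0 : 0 < Real.log z := Real.log_pos (by linarith)
  set t : ℝ := ((TT x z).card : ℝ) with ht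
  -- the size of the set of primes of the class
  have hTc : ∀ c : ℕ, AdmC m c → cl m / 2 * t ≤ ((Tc x z m c).card : ℝ) := by
    intro c hc
    have hmL : (m : ℝ) ≤ Real.log x ^ (B * (r + 1) + 1) := by
      have h3 : Real.log x ≤ Real.log x ^ (B * (r + 1) + 1) := by
        nth_rewrite 1 [← pow_one (Real.log x)]
        exact pow_le_pow_right₀ hL1 (by omega)
      have h4 : (0 : ℝ) ≤ m := Nat.cast_nonneg _
      linarith
    have e := hNS m c hm hmL hc.1 (fun q hq hq3 =>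
      hc.2 q (Nat.prime_of_mem_primeFactors hq) (Nat.dvd_of_mem_primeFactors hq) hq3)
    rw [NS_eq'] at e
    have e2 : (TT x z).filter (fun p => p % m = c % m) = Tc x z m c := rfl
    rw [e2] at e
    have e3 := (abs_le.1 e).1
    have e4 : ε' * (cl m * t) ≤ 1 / 8 * (cl m * t) :=
      mul_le_mul_of_nonneg_right hε'1 (by positivity)
    have e5 : 0 ≤ cl m * t := by positivity
    linarith
  refine ⟨?_, ?_⟩
  · intro c hc
    refine le_trans ?_ (hTc c hc)
    have h3 : (x : ℝ) / (K * (Real.log x * Real.log z)) ≤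
        cl m / 2 * (x / (K₂ * (Real.log x * Real.log z))) := by
      have h4 : (x : ℝ) / (K * (Real.log x * Real.log z)) ≤
          x / (2 * K₂ / cl m * (Real.log x * Real.log z)) := by
        apply div_le_div_of_nonneg_left (Nat.cast_nonneg _) (by positivity)
        exact mul_le_mul_of_nonneg_right hKK₃ (by positivity)
      refine h4.trans (le_of_eq ?_)
      field_simp
    exact h3.trans (mul_le_mul_of_nonneg_left hlow (by positivity))
  · intro a b ha hMI hb hbB V h hV hVx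
    obtain ⟨haH, hbH, h1⟩ := h1 a b ha hMI hb hbB
    obtain ⟨E, hE, hEc, hbad⟩ := h1 V h hV hVx
    refine ⟨E, hE, hEc.trans ?_, ?_⟩
    · apply mul_le_mul_of_nonneg_right hKK₁
      positivity
    · intro v hv D k hD hn c hc δ hd0 hd1 hδ
      have hb1 := hbad v hv
      have hD0 : D ≠ 0 := hD.ne_zero
      have hD1 : 1 ≤ D.natAbs := Int.natAbs_pos.2 hD0
      have hnd : ∀ p : ℕ, p.Prime → H < p → ¬ (p : ℤ) ∣ nv a b v := by
        intro p hp hpH
        apply nv_dvd a b v p hp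
        · intro hi
          have h3 := Nat.le_of_dvd (Int.natAbs_pos.2 hb) (Int.natCast_dvd.1 hi)
          omega
        · intro i hi
          have h3 := Nat.le_of_dvd (Int.natAbs_pos.2 (ha i).1) (Int.natCast_dvd.1 hi)
          have h4 := haH i
          omega
      have hDr := Dbound' a b v D k hD B (Real.log x) ha hb hbB hn
      set M := 4 * D.natAbs * m with hMdef
      have hML : (M : ℝ) ≤ Real.log x ^ (B * (r + 1) + 1) := by
        rw [hMdef, pow_succ]
        push_cast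
        have e1 : (4 : ℝ) * D.natAbs * m = D.natAbs * (4 * m) := by ring
        rw [e1]
        exact mul_le_mul hDr hm4 (by positivity) (by positivity)
      have hMz : M ≤ z := by
        have : (M : ℝ) ≤ z := hML.trans hLBz
        exact_mod_cast this
      have hM1 : 1 ≤ M := by
        rw [hMdef]
        have := Nat.mul_pos (by omega : 0 < 4 * D.natAbs) (by omega : 0 < m)
        omega
      obtain ⟨hA, hB⟩ := close (x := x) (z := z) (H := H) (m := m) (c := c) hn hD0 hm hc.1 hMz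
        hH2 hnd
      have hu : 0 ≤ cl M * t := mul_nonneg (cl_pos M hM1).le ht0.le
      have hS := sum_close (S := cls D m c) (S' := neg D m c) (filter_subset _ _)
        (fun a => ((NS x M a (OP z)).card : ℝ)) (cl M * t) ε' δ hu hε'0.le
        (by linarith) hd0 hδ (by
          intro a' ha'
          have h3 := (mem_cls.1 ha').2
          exact hNS M a' hM1 hML h3.1 (fun q hq hq3 =>
            h3.2.2 q (Nat.prime_of_mem_primeFactors hq) (Nat.dvd_of_mem_primeFactors hq) hq3))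
      have hT := hTc c hc
      set T : ℝ := ((Tc x z m c).card : ℝ) with hTdef
      set P : ℝ := ((Pc (nv a b v) x z m c).card : ℝ) with hPdef
      set S₀ : ℝ := ∑ a ∈ cls D m c, ((NS x M a (OP z)).card : ℝ) with hS₀
      set S₁ : ℝ := ∑ a ∈ neg D m c, ((NS x M a (OP z)).card : ℝ) with hS₁
      have hT0 : 0 ≤ T := Nat.cast_nonneg _
      have hεt : ε₁ / 2 * t ≤ ε' * T := by
        calc ε₁ / 2 * t = ε' * (cl m / 2 * t) := by rw [hε₁]; ring
          _ ≤ ε' * T := mul_le_mul_of_nonneg_left hT hε'0.le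
      have hH' : (H : ℝ) ≤ ε' * T := hHt.trans hεt
      have hBad : ((Bad (nv a b v) x z H).card : ℝ) ≤ ε' * T := hb1.trans hεt
      have hS₀T : S₀ ≤ T + ε' * T := by
        have := (abs_le.1 hA).1
        linarith
      have e1 : P - δ * T = (P - S₁) + (S₁ - δ * S₀) -
          δ * (T - S₀) := by ring
      have e2 : |δ * (T - S₀)| ≤ ε' * T := by
        rw [abs_mul, abs_of_nonneg hd0]
        calc δ * |T - S₀| ≤ 1 * |T - S₀| := mul_le_mul_of_nonneg_right hd1 (abs_nonneg _)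
          _ = |T - S₀| := one_mul _
          _ ≤ H := hA
          _ ≤ ε' * T := hH'
      have e3 : 4 * ε' * S₀ ≤ 4 * ε' * (T + ε' * T) :=
        mul_le_mul_of_nonneg_left hS₀T (by positivity)
      have e4 : 4 * ε' * (ε' * T) ≤ 4 * (1 / 8) * (ε' * T) :=
        mul_le_mul_of_nonneg_right (by linarith) (by positivity)
      rw [e1]
      calc |(P - S₁) + (S₁ - δ * S₀) - δ * (T - S₀)|
          ≤ |(P - S₁) + (S₁ - δ * S₀)| + |δ * (T - S₀)| := abs_sub _ _
        _ ≤ (|P - S₁| + |S₁ - δ * S₀|) + |δ * (T - S₀)| :=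
            add_le_add_left (abs_add_le _ _) _
        _ ≤ ((ε' * T + ε' * T) + 4 * ε' * (T + ε' * T)) + ε' * T := by
            have := hB.trans (add_le_add hH' hBad)
            have := hS.trans e3
            linarith
        _ ≤ 8 * ε' * T := by nlinarith
        _ ≤ ε * T := mul_le_mul_of_nonneg_right hε'ε hT0

end Pool.Agent.Q321.AP
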