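import Mathlib
import Pool.Agent.Q321.AP.Main

/-!
The density is one half if `D` is not `1` modulo `4` and the modulus is odd.
-/

set_option autoImplicit false

open Finset

namespace Pool.Agent.Q321.AP

open Pool.Agent.Y855

theorem chi4_add_two {a b : ℕ} (h : b % 4 = (a + 2) % 4) (ha : a % 2 = 1) :
    ZMod.χ₄ b = - ZMod.χ₄ a := by
  rw [ZMod.χ₄_nat_eq_if_mod_four, ZMod.χ₄_nat_eq_if_mod_four]
  split_ifs <;> first | omega | norm_num

theorem chi8_add_four {a b : ℕ} (h : b % 8 = (a + 4) % 8) (ha : a % 2 = 1) :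
    ZMod.χ₈ b = - ZMod.χ₈ a := by
  rw [ZMod.χ₈_nat_eq_if_mod_eight, ZMod.χ₈_nat_eq_if_mod_eight]
  split_ifs <;> first | omega | norm_num

/-- the shift by half of the modulus changes the symbol -/
theorem jacobi_shift {D : ℤ} (hD : Squarefree D) (hD4 : D % 4 ≠ 1) {m : ℕ} (hm : m % 2 = 1)
    {a b : ℕ} (ha : a % 2 = 1)
    (hb : b % (4 * D.natAbs * m) = (a + 2 * D.natAbs * m) % (4 * D.natAbs * m)) :
    jacobiSym D b = - jacobiSym D a := by
  have hD0 : D ≠ 0 := hD.ne_zero
  have hD4' : D % 4 ≠ 0 := by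
    intro h
    have h2 : (2 : ℤ) * 2 ∣ D := by
      have := Int.dvd_of_emod_eq_zero h
      simpa using this
    have h3 := hD 2 h2
    exact absurd (Int.isUnit_iff.1 h3) (by norm_num)
  have hmod : ∀ q : ℕ, q ∣ 4 * D.natAbs * m → b % q = (a + 2 * D.natAbs * m) % q := by
    intro q hq
    rw [← Nat.mod_mod_of_dvd b hq, hb, Nat.mod_mod_of_dvd _ hq]
  have hb2 : b % 2 = 1 := by
    rw [hmod 2 (((by norm_num : 2 ∣ 4).mul_right _).mul_right _)]
    have : (2 * D.natAbs * m) = 2 * (D.natAbs * m) := by ring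
    omega
  have hao : Odd a := Nat.odd_iff.2 ha
  have hbo : Odd b := Nat.odd_iff.2 hb2
  rcases (by omega : D % 4 = 2 ∨ D % 4 = 3) with h | h
  · -- `D = 2 E`
    obtain ⟨E, hE⟩ : ∃ E : ℤ, D = 2 * E := ⟨D / 2, by omega⟩
    have hE2 : E % 2 = 1 := by omega
    have hEn : D.natAbs = 2 * E.natAbs := by rw [hE, Int.natAbs_mul]; rfl
    have hEn2 : E.natAbs % 2 = 1 := by omega
    have hEm : (E.natAbs * m) % 2 = 1 := by
      rw [Nat.mul_mod, hEn2, hm]
    rw [hE, jacobiSym.mul_left, jacobiSym.mul_left, jacobiSym.at_two hao, jacobiSym.at_two hbo]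
    have e8 : b % 8 = (a + 4) % 8 := by
      rw [hmod 8 ⟨E.natAbs * m, by rw [hEn]; ring⟩, hEn]
      have : 2 * (2 * E.natAbs) * m = 4 * (E.natAbs * m) := by ring
      omega
    rw [chi8_add_four e8 ha, jacobiSym.mod_right E hao, jacobiSym.mod_right E hbo]
    have e4 : b % (4 * E.natAbs) = a % (4 * E.natAbs) := by
      rw [hmod (4 * E.natAbs) ⟨2 * m, by rw [hEn]; ring⟩, hEn]
      have : 2 * (2 * E.natAbs) * m = 4 * E.natAbs * m := by ring
      rw [this, Nat.add_mul_mod_self_left]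
    rw [e4]
    ring
  · -- `D = - F`
    have hF : (-D) % 4 = 1 := by omega
    have hDn2 : D.natAbs % 2 = 1 := by omega
    have hDm : (D.natAbs * m) % 2 = 1 := by
      rw [Nat.mul_mod, hDn2, hm]
    have key : ∀ c : ℕ, Odd c → jacobiSym D c = ZMod.χ₄ c * jacobiSym c D.natAbs := by
      intro c hc
      have h1 : jacobiSym D c = jacobiSym (- -D) c := by rw [neg_neg]
      rw [h1, jacobiSym.neg _ hc, jac_recip (-D) hF c hc, Int.natAbs_neg]
    have e4 : b % 4 = (a + 2) % 4 := by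
      rw [hmod 4 ((dvd_mul_right _ _).mul_right _)]
      have : 2 * D.natAbs * m = 2 * (D.natAbs * m) := by ring
      omega
    have eD : b % D.natAbs = a % D.natAbs := by
      rw [hmod D.natAbs ((dvd_mul_left _ _).mul_right _)]
      have : 2 * D.natAbs * m = D.natAbs * (2 * m) := by ring
      rw [this, Nat.add_mul_mod_self_left]
    rw [key b hbo, key a hao, chi4_add_two e4 ha, jacobiSym.mod_left (b : ℤ), jacobiSym.mod_left (a : ℤ)]
    have : ((b : ℤ) % (D.natAbs : ℤ)) = ((a : ℤ) % (D.natAbs : ℤ)) := by exact_mod_cast eD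
    rw [this]
    ring

/-- the shift of the classes -/
def sh (D : ℤ) (m a : ℕ) : ℕ := (a + 2 * D.natAbs * m) % (4 * D.natAbs * m)

theorem sh_sh {D : ℤ} {m a : ℕ} (ha : a < 4 * D.natAbs * m) : sh D m (sh D m a) = a := by
  unfold sh
  rw [Nat.mod_add_mod]
  have : a + 2 * D.natAbs * m + 2 * D.natAbs * m = a + 4 * D.natAbs * m := by ring
  rw [this, Nat.add_mod_right, Nat.mod_eq_of_lt ha]

theorem sh_mem {D : ℤ} (hD0 : D ≠ 0) {m c a : ℕ} (hm : m % 2 = 1)
    (ha : a ∈ cls D m c) : sh D m a ∈ cls D m c := by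
  have hDn : 0 < D.natAbs := Int.natAbs_pos.2 hD0
  have hM0 : 0 < 4 * D.natAbs * m := by
    have : 0 < m := by omega
    positivity
  rw [mem_cls] at ha ⊢
  obtain ⟨h1, h2, h3, h4⟩ := ha
  have hmod : ∀ q : ℕ, q ∣ 4 * D.natAbs * m → sh D m a % q = (a + 2 * D.natAbs * m) % q := by
    intro q hq
    unfold sh
    rw [Nat.mod_mod_of_dvd _ hq]
  have hprime : ∀ q : ℕ, q.Prime → q ∣ 4 * D.natAbs * m → sh D m a % q = a % q := by
    intro q hq hqd
    rw [hmod q hqd]
    have hq' : q ∣ 2 * D.natAbs * m := by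
      have h5 : 4 * D.natAbs * m = 2 * (2 * D.natAbs * m) := by ring
      rw [h5] at hqd
      rcases (Nat.Prime.dvd_mul hq).1 hqd with h | h
      · exact (h.mul_right _).mul_right _
      · exact h
    obtain ⟨t, ht⟩ := hq'
    rw [ht, Nat.add_mul_mod_self_left]
  refine ⟨Nat.mod_lt _ hM0, ?_, ?_, ?_⟩
  · rw [Nat.coprime_iff_gcd_eq_one] at h2 ⊢
    by_contra hne
    obtain ⟨q, hq, hqd⟩ := Nat.exists_prime_and_dvd hne
    have h5 := (Nat.dvd_gcd_iff.1 hqd).1
    have h6 := (Nat.dvd_gcd_iff.1 hqd).2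
    have h7 : q ∣ a := by
      apply Nat.dvd_of_mod_eq_zero
      rw [← hprime q hq h6]
      exact Nat.mod_eq_zero_of_dvd h5
    have h8 := Nat.dvd_gcd h7 h6
    rw [h2] at h8
    exact hq.one_lt.ne' (Nat.dvd_one.1 h8)
  · rw [hmod m (dvd_mul_left _ _), Nat.add_mul_mod_self_right]
    exact h3
  · intro q hq hqd hq3
    rw [hprime q hq hqd]
    exact h4 q hq hqd hq3

theorem two_neg {D : ℤ} (hD : Squarefree D) (hD4 : D % 4 ≠ 1) {m : ℕ} (hm : m % 2 = 1) (c : ℕ) :
    (1 / 2 : ℝ) * (cls D m c).card = (neg D m c).card := by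
  classical
  have hD0 : D ≠ 0 := hD.ne_zero
  have hodd : ∀ a ∈ cls D m c, a % 2 = 1 := by
    intro a ha
    have h1 := (mem_cls.1 ha).2.1
    by_contra h
    have h2 : 2 ∣ a := by omega
    have h3 : 2 ∣ 4 * D.natAbs * m := ((by norm_num : 2 ∣ 4).mul_right _).mul_right _
    have h4 := Nat.dvd_gcd h2 h3
    rw [h1] at h4
    norm_num at h4
  have hneg : ∀ a ∈ cls D m c, jacobiSym D (sh D m a) = - jacobiSym D a := by
    intro a ha
    apply jacobi_shift hD hD4 hm (hodd a ha)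
    unfold sh
    rw [Nat.mod_mod]
  have hpm : ∀ a ∈ cls D m c, jacobiSym D a = 1 ∨ jacobiSym D a = -1 := by
    intro a ha
    apply jacobiSym.eq_one_or_neg_one
    have h1 := (mem_cls.1 ha).2.1
    have h2 : a.Coprime D.natAbs :=
      Nat.Coprime.coprime_dvd_right ((dvd_mul_left _ _).mul_right _) h1
    rw [Int.gcd_comm]
    exact h2
  set pos := (cls D m c).filter (fun a => ¬ jacobiSym D a = -1) with hpos
  have hcard : (neg D m c).card = pos.card := by
    apply card_nbij' (sh D m) (sh D m)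
    · intro a ha
      unfold neg at ha
      rw [mem_coe, mem_filter] at ha
      rw [hpos, mem_coe, mem_filter]
      refine ⟨sh_mem hD0 hm ha.1, ?_⟩
      rw [hneg a ha.1, ha.2]
      norm_num
    · intro a ha
      rw [hpos, mem_coe, mem_filter] at ha
      unfold neg
      rw [mem_coe, mem_filter]
      refine ⟨sh_mem hD0 hm ha.1, ?_⟩
      rw [hneg a ha.1]
      rcases hpm a ha.1 with h | h
      · rw [h]
      · exact absurd h ha.2
    · intro a ha
      unfold neg at ha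
      rw [mem_coe, mem_filter] at ha
      exact sh_sh (cls_lt ha.1)
    · intro a ha
      rw [hpos, mem_coe, mem_filter] at ha
      exact sh_sh (cls_lt ha.1)
  have hsum : (neg D m c).card + pos.card = (cls D m c).card :=
    card_filter_add_card_filter_not _
  rw [← hsum, ← hcard]
  push_cast
  ring

end Pool.Agent.Q321.AP
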